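import Mathlib

/-!
# MP_37fa12_co (helper50): the positive kernel of every degree

`K(x,y) = ∑_(2j ≤ l) c_j (|x|²|y|²)^j ⟨x,y⟩^(l-2j)` with the coefficients of the Gegenbauer polynomial is a
Gram kernel.  Proof by the Fischer product on polynomials: `⟨X_i f, g⟩ = ⟨f, ∂_i g⟩`.
-/

set_option autoImplicit false

noncomputable section

open Finset MvPolynomial
open scoped RealInnerProductSpace Nat

namespace Pool.Agent.LPK.H50G

variable {n : ℕ}

/-- polynomials in `n` variables -/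
abbrev MP (n : ℕ) : Type := MvPolynomial (Fin n) ℝ

/-- the weight of a monomial -/
def wt (m : Fin n →₀ ℕ) : ℝ := ∏ i, ((m i)! : ℝ)

theorem wt_nonneg (m : Fin n →₀ ℕ) : 0 ≤ wt m := by
  unfold wt
  positivity

theorem wt_add (m : Fin n →₀ ℕ) (i : Fin n) : wt (m + Finsupp.single i 1) = (m i + 1) * wt m := by
  unfold wt
  rw [← Finset.mul_prod_erase univ (fun j => (((m + Finsupp.single i 1 : Fin n →₀ ℕ) j)! : ℝ)) (mem_univ i),
    ← Finset.mul_prod_erase univ (fun j => ((m j)! : ℝ)) (mem_univ i)]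
  have h1 : ∏ j ∈ univ.erase i, (((m + Finsupp.single i 1 : Fin n →₀ ℕ) j)! : ℝ) =
      ∏ j ∈ univ.erase i, ((m j)! : ℝ) := by
    refine prod_congr rfl fun j hj => ?_
    have : j ≠ i := (mem_erase.1 hj).1
    simp [this.symm]
  rw [h1]
  simp [Nat.factorial_succ]
  ring

/-- the Fischer product -/
def fis (f g : MP n) : ℝ := ∑ m ∈ f.support, coeff m f * (coeff m g * wt m)

theorem fis_sup (f g : MP n) (M : Finset (Fin n →₀ ℕ)) (hM : f.support ⊆ M) :
    fis f g = ∑ m ∈ M, coeff m f * (coeff m g * wt m) := by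
  unfold fis
  refine sum_subset hM fun m _ hm => ?_
  rw [MvPolynomial.notMem_support_iff.1 hm, zero_mul]

theorem fis_add (f f' g : MP n) : fis (f + f') g = fis f g + fis f' g := by
  classical
  set M := f.support ∪ f'.support ∪ (f + f').support
  rw [fis_sup (f + f') g M subset_union_right,
    fis_sup f g M (subset_union_left.trans subset_union_left),
    fis_sup f' g M (subset_union_right.trans subset_union_left), ← sum_add_distrib]
  refine sum_congr rfl fun m _ => ?_
  rw [coeff_add]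
  ring

theorem fis_smul (c : ℝ) (f g : MP n) : fis (C c * f) g = c * fis f g := by
  classical
  set M := f.support ∪ (C c * f).support
  rw [fis_sup (C c * f) g M subset_union_right, fis_sup f g M subset_union_left, mul_sum]
  refine sum_congr rfl fun m _ => ?_
  rw [coeff_C_mul]
  ring

theorem fis_zero (g : MP n) : fis (0 : MP n) g = 0 := by
  unfold fis
  simp

theorem fis_sum {ι : Type} (s : Finset ι) (f : ι → MP n) (g : MP n) :
    fis (∑ i ∈ s, f i) g = ∑ i ∈ s, fis (f i) g := by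
  classical
  induction s using Finset.induction_on with
  | empty => simp [fis_zero]
  | insert a s ha ih => rw [sum_insert ha, sum_insert ha, fis_add, ih]

theorem fis_addr (f g g' : MP n) : fis f (g + g') = fis f g + fis f g' := by
  unfold fis
  rw [← sum_add_distrib]
  refine sum_congr rfl fun m _ => ?_
  rw [coeff_add]
  ring

theorem fis_zeror (f : MP n) : fis f 0 = 0 := by
  unfold fis
  simp

theorem fis_sumr {ι : Type} (s : Finset ι) (f : MP n) (g : ι → MP n) :
    fis f (∑ i ∈ s, g i) = ∑ i ∈ s, fis f (g i) := by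
  classical
  induction s using Finset.induction_on with
  | empty => simp [fis_zeror]
  | insert a s ha ih => rw [sum_insert ha, sum_insert ha, fis_addr, ih]

/-- the adjoint of `X_i` is the derivative -/
theorem fis_X (i : Fin n) (f g : MP n) : fis (X i * f) g = fis f (pderiv i g) := by
  induction f using MvPolynomial.induction_on' with
  | monomial u a =>
    have h1 : (X i * monomial u a : MP n) = monomial (u + Finsupp.single i 1) a := by
      rw [add_comm, ← one_mul a, ← monomial_mul, one_mul]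
      rfl
    classical
    rw [h1, fis_sup _ g {u + Finsupp.single i 1} support_monomial_subset,
      fis_sup _ (pderiv i g) {u} support_monomial_subset, sum_singleton, sum_singleton, coeff_monomial,
      coeff_monomial, if_pos rfl, if_pos rfl, wt_add, coeff_pderiv]
    ring
  | add p q hp hq => rw [mul_add, fis_add, fis_add, hp, hq]

/-- the linear form -/
def Lf (a : Fin n → ℝ) : MP n := ∑ i, C (a i) * X i
/-- the quadratic form -/
def Rf : MP n := ∑ i : Fin n, X i ^ 2
/-- the Laplace operator -/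
def lap (g : MP n) : MP n := ∑ i, pderiv i (pderiv i g)

theorem fis_L (a : Fin n → ℝ) (f g : MP n) : fis (Lf a * f) g = ∑ i, a i * fis f (pderiv i g) := by
  unfold Lf
  rw [sum_mul, fis_sum]
  refine sum_congr rfl fun i _ => ?_
  rw [mul_assoc, fis_smul, fis_X]

theorem fis_R (f g : MP n) : fis (Rf * f) g = fis f (lap g) := by
  unfold Rf lap
  rw [sum_mul, fis_sum, fis_sumr]
  refine sum_congr rfl fun i _ => ?_
  rw [pow_two, mul_assoc, fis_X, fis_X]

/-- evaluation at a point -/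
theorem fis_pow (a : Fin n → ℝ) : ∀ (l : ℕ) (g : MP n), g.IsHomogeneous l →
    fis (Lf a ^ l) g = l ! * eval a g
  | 0, g, hg => by
    have h1 : g = C (coeff 0 g) := by
      rw [← totalDegree_eq_zero_iff_eq_C]
      exact Nat.le_zero.1 hg.totalDegree_le
    have h2 : fis (1 : MP n) g = coeff 0 g := by
      rw [fis_sup 1 g {0} (by
        rw [← C_1]
        exact support_monomial_subset), sum_singleton]
      simp [wt]
    rw [pow_zero, h2, h1]
    simp
  | l + 1, g, hg => by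
    have hd : ∀ i, (pderiv i g).IsHomogeneous l := fun i => by
      have := hg.pderiv (i := i)
      simpa using this
    rw [pow_succ', fis_L]
    have h1 : ∀ i, a i * fis (Lf a ^ l) (pderiv i g) = l ! * (a i * eval a (pderiv i g)) := by
      intro i
      rw [fis_pow a l _ (hd i)]
      ring
    have h2 : eval a (∑ i, X i * pderiv i g) = eval a ((l + 1) • g) := by
      rw [hg.sum_X_mul_pderiv]
    rw [map_sum, map_nsmul] at h2
    simp only [map_mul, eval_X, nsmul_eq_mul] at h2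
    rw [sum_congr rfl fun i _ => h1 i, ← mul_sum, h2, Nat.factorial_succ]
    push_cast
    ring

theorem pd_L (a : Fin n → ℝ) (i : Fin n) : pderiv i (Lf a) = C (a i) := by
  unfold Lf
  rw [map_sum, sum_eq_single i]
  · rw [pderiv_C_mul, pderiv_X_self, mul_one]
  · intro j _ hj
    rw [pderiv_C_mul, pderiv_X_of_ne hj, mul_zero]
  · intro h
    exact absurd (mem_univ i) h

theorem pd_R (i : Fin n) : pderiv i (Rf : MP n) = 2 * X i := by
  unfold Rf
  rw [map_sum, sum_eq_single i]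
  · rw [pderiv_pow, pderiv_X_self]
    simp
  · intro j _ hj
    rw [pderiv_pow, pderiv_X_of_ne hj, mul_zero]
  · intro h
    exact absurd (mem_univ i) h

theorem lap_R : lap (Rf : MP n) = C (2 * n : ℝ) := by
  unfold lap
  have h1 : ∀ i : Fin n, pderiv i (pderiv i (Rf : MP n)) = C 2 := by
    intro i
    rw [pd_R, show (2 : MP n) * X i = C 2 * X i by rw [map_ofNat C 2], pderiv_C_mul, pderiv_X_self, mul_one]
  rw [sum_congr rfl fun i _ => h1 i, sum_const, card_univ, Fintype.card_fin, nsmul_eq_mul, map_mul, map_natCast]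
  ring

theorem lap_Rmul (d : ℕ) (h : MP n) (hh : h.IsHomogeneous d) :
    lap (Rf * h) = C (2 * n + 4 * d : ℝ) * h + Rf * lap h := by
  have h1 : ∀ i : Fin n, pderiv i (pderiv i (Rf * h)) =
      pderiv i (pderiv i Rf) * h + 4 * (X i * pderiv i h) + Rf * pderiv i (pderiv i h) := by
    intro i
    rw [pderiv_mul, map_add, pderiv_mul, pderiv_mul, pd_R]
    ring
  have h2 := hh.sum_X_mul_pderiv
  unfold lap
  rw [sum_congr rfl fun i _ => h1 i, sum_add_distrib, sum_add_distrib, ← sum_mul, ← mul_sum, ← mul_sum, h2]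
  have h3 := lap_R (n := n)
  unfold lap at h3
  rw [h3, nsmul_eq_mul]
  simp only [map_add, map_mul, map_natCast, map_ofNat]
  ring

/-- square of the length -/
def nn (a : Fin n → ℝ) : ℝ := ∑ i, a i ^ 2

theorem lap_L0 (a : Fin n → ℝ) : lap (Lf a ^ 0) = 0 := by
  unfold lap
  simp

theorem lap_L1 (a : Fin n → ℝ) : lap (Lf a ^ 1) = 0 := by
  unfold lap
  simp [pd_L]

theorem lap_L2 (a : Fin n → ℝ) (k : ℕ) :
    lap (Lf a ^ (k + 2)) = C (((k + 2) * (k + 1) : ℝ) * nn a) * Lf a ^ k := by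
  have h1 : ∀ i : Fin n, pderiv i (pderiv i (Lf a ^ (k + 2))) =
      C (((k + 2) * (k + 1) : ℝ) * a i ^ 2) * Lf a ^ k := by
    intro i
    rw [pderiv_pow, pd_L, show (k + 2 - 1) = k + 1 by omega]
    rw [show (((k + 2 : ℕ) : MP n)) * Lf a ^ (k + 1) * C (a i) =
      C ((k + 2 : ℝ) * a i) * Lf a ^ (k + 1) by
        simp only [map_add, map_mul, map_natCast, map_ofNat]
        push_cast
        ring]
    rw [pderiv_C_mul, pderiv_pow, pd_L, show (k + 1 - 1) = k by omega]
    simp only [map_add, map_mul, map_natCast, map_ofNat, map_pow, map_one]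
    push_cast
    ring
  unfold lap nn
  rw [sum_congr rfl fun i _ => h1 i, ← sum_mul, ← map_sum, ← mul_sum]

theorem hom_L (a : Fin n → ℝ) : (Lf a).IsHomogeneous 1 := by
  unfold Lf
  refine IsHomogeneous.sum _ _ _ fun i _ => ?_
  have := (isHomogeneous_C (Fin n) (a i)).mul (isHomogeneous_X ℝ i)
  simpa using this

theorem hom_R : (Rf : MP n).IsHomogeneous 2 := by
  unfold Rf
  refine IsHomogeneous.sum _ _ _ fun i _ => ?_
  exact isHomogeneous_X_pow i 2

theorem hom_RL (a : Fin n → ℝ) (j k : ℕ) : (Rf ^ j * Lf a ^ k).IsHomogeneous (2 * j + k) := by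
  have h1 := (hom_R (n := n)).pow j
  have h2 := (hom_L a).pow k
  have := h1.mul h2
  simpa using this

theorem lap_RL (a : Fin n → ℝ) (k : ℕ) : ∀ j : ℕ, lap (Rf ^ (j + 1) * Lf a ^ k) =
    C ((j + 1) * (2 * n + 4 * j + 4 * k) : ℝ) * (Rf ^ j * Lf a ^ k) + Rf ^ (j + 1) * lap (Lf a ^ k)
  | 0 => by
    have h := lap_Rmul k (Lf a ^ k) (by simpa using (hom_L a).pow k)
    rw [zero_add, pow_one, h]
    simp
  | j + 1 => by
    have h := lap_Rmul (2 * (j + 1) + k) (Rf ^ (j + 1) * Lf a ^ k) (hom_RL a (j + 1) k)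
    rw [pow_succ' Rf (j + 1), mul_assoc, h, lap_RL a k j]
    push_cast
    simp only [map_add, map_mul, map_natCast, map_ofNat, map_one]
    ring

/-- the polynomial of degree `l` with the axis `a` -/
def Pl (l : ℕ) (c : ℕ → ℝ) (a : Fin n → ℝ) : MP n :=
  ∑ j ∈ range (l / 2 + 1), C (c j * nn a ^ j) * (Rf ^ j * Lf a ^ (l - 2 * j))

theorem hom_Pl (l : ℕ) (c : ℕ → ℝ) (a : Fin n → ℝ) : (Pl l c a).IsHomogeneous l := by
  unfold Pl
  refine IsHomogeneous.sum _ _ _ fun j hj => ?_
  have h1 : j < l / 2 + 1 := mem_range.1 hj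
  have h2 : 2 * j + (l - 2 * j) = l := by omega
  have := (isHomogeneous_C (Fin n) (c j * nn a ^ j)).mul (hom_RL a j (l - 2 * j))
  rw [h2, zero_add] at this
  exact this

/-- the recursion of the coefficients -/
def Rec (n l : ℕ) (c : ℕ → ℝ) : Prop := ∀ j : ℕ, 2 * j + 2 ≤ l →
  c (j + 1) * (2 * (j + 1) * (n + 2 * l - 2 * j - 4)) = - (c j * ((l - 2 * j) * (l - 2 * j - 1)))

theorem lap_add (f g : MP n) : lap (f + g) = lap f + lap g := by
  unfold lap
  rw [← sum_add_distrib]
  refine sum_congr rfl fun i _ => ?_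
  rw [map_add, map_add]

theorem lap_Cmul (c : ℝ) (f : MP n) : lap (C c * f) = C c * lap f := by
  unfold lap
  rw [mul_sum]
  refine sum_congr rfl fun i _ => ?_
  rw [pderiv_C_mul, pderiv_C_mul]

theorem lap_zero : lap (0 : MP n) = 0 := by
  unfold lap
  simp

theorem lap_sum {ι : Type} (s : Finset ι) (f : ι → MP n) :
    lap (∑ i ∈ s, f i) = ∑ i ∈ s, lap (f i) := by
  classical
  induction s using Finset.induction_on with
  | empty => simp [lap_zero]
  | insert a s ha ih => rw [sum_insert ha, sum_insert ha, lap_add, ih]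

theorem lap_low (a : Fin n → ℝ) (k : ℕ) (hk : k < 2) : lap (Lf a ^ k) = 0 := by
  rcases Nat.lt_or_ge k 1 with h | h
  · have : k = 0 := by omega
    subst this
    exact lap_L0 a
  · have : k = 1 := by omega
    subst this
    exact lap_L1 a

theorem lap_Pl (l : ℕ) (c : ℕ → ℝ) (hc : Rec n l c) (a : Fin n → ℝ) : lap (Pl l c a) = 0 := by
  unfold Pl
  rw [lap_sum]
  -- split the terms
  have key : ∀ q : ℕ, 2 * q ≤ l → ∑ j ∈ range (q + 1), lap (C (c j * nn a ^ j) * (Rf ^ j * Lf a ^ (l - 2 * j))) =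
      C (c q * nn a ^ q) * (Rf ^ q * lap (Lf a ^ (l - 2 * q))) := by
    intro q
    induction q with
    | zero =>
      intro _
      simp [lap_Cmul]
    | succ q ih =>
      intro hq
      rw [sum_range_succ, ih (by omega), lap_Cmul, lap_RL]
      obtain ⟨k, hk⟩ : ∃ k, l - 2 * q = k + 2 := ⟨l - 2 * q - 2, by omega⟩
      have hk2 : l - 2 * (q + 1) = k := by omega
      rw [hk, hk2, lap_L2]
      have h1 := hc q (by omega)
      have hl : (l : ℝ) = k + 2 + 2 * q := by
        have : l = k + 2 + 2 * q := by omega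
        rw [this]
        push_cast
        ring
      have h2 : c q * nn a ^ q * (((k + 2) * (k + 1) : ℝ) * nn a) +
          c (q + 1) * nn a ^ (q + 1) * ((q + 1) * (2 * n + 4 * q + 4 * k)) = 0 := by
        rw [hl] at h1
        have h3 : c (q + 1) * ((q + 1) * (2 * n + 4 * q + 4 * k)) =
            - (c q * ((k + 2) * (k + 1))) := by
          linear_combination h1
        rw [pow_succ]
        linear_combination (nn a ^ q * nn a) * h3
      have h4 := congrArg (fun t : ℝ => (C t : MP n) * (Rf ^ q * Lf a ^ k)) h2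
      simp only [map_add, map_mul, map_zero, zero_mul] at h4
      simp only [map_mul]
      simp only [map_add, map_mul] at h4 ⊢
      linear_combination h4
  rw [key (l / 2) (by omega), lap_low a (l - 2 * (l / 2)) (by omega), mul_zero, mul_zero]

theorem eval_L (a b : Fin n → ℝ) : eval b (Lf a) = ∑ i, a i * b i := by
  unfold Lf
  simp

theorem eval_R (b : Fin n → ℝ) : eval b (Rf : MP n) = nn b := by
  unfold Rf nn
  simp

theorem eval_Pl (l : ℕ) (c : ℕ → ℝ) (a b : Fin n → ℝ) : eval b (Pl l c a) =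
    ∑ j ∈ range (l / 2 + 1), c j * (nn a * nn b) ^ j * (∑ i, a i * b i) ^ (l - 2 * j) := by
  unfold Pl
  rw [map_sum]
  refine sum_congr rfl fun j _ => ?_
  have h1 : eval b (C (c j * nn a ^ j) * (Rf ^ j * Lf a ^ (l - 2 * j))) =
      (c j * nn a ^ j) * (eval b (Rf : MP n) ^ j * eval b (Lf a) ^ (l - 2 * j)) := by
    rw [eval_mul, eval_C, eval_mul, eval_pow, eval_pow]
  rw [h1, eval_L, eval_R, mul_pow]
  ring

/-- the Fischer product of two polynomials with axes `b`, `a` is the value -/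
theorem fis_Pl (l : ℕ) (c : ℕ → ℝ) (hc : Rec n l c) (a b : Fin n → ℝ) :
    fis (Pl l c b) (Pl l c a) = c 0 * l ! * eval b (Pl l c a) := by
  have h0 : Pl l c b = ∑ j ∈ range (l / 2 + 1), C (c j * nn b ^ j) * (Rf ^ j * Lf b ^ (l - 2 * j)) := rfl
  rw [h0, fis_sum, sum_range_succ']
  have h1 : ∀ j ∈ range (l / 2), fis (C (c (j + 1) * nn b ^ (j + 1)) *
      (Rf ^ (j + 1) * Lf b ^ (l - 2 * (j + 1)))) (Pl l c a) = 0 := by
    intro j _
    rw [fis_smul, pow_succ' Rf j, mul_assoc Rf, fis_R, lap_Pl l c hc a, fis_zeror, mul_zero]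
  rw [sum_eq_zero h1, fis_smul]
  simp only [pow_zero, one_mul, mul_one, mul_zero, Nat.sub_zero, zero_add]
  rw [fis_pow b l _ (hom_Pl l c a)]
  ring

/-- the kernel -/
def Kg (l : ℕ) (c : ℕ → ℝ) (A B H : ℝ) : ℝ :=
  ∑ j ∈ range (l / 2 + 1), c j * (A * B) ^ j * H ^ (l - 2 * j)

/-- the exponents -/
def Ms (n l : ℕ) : Finset (Fin n →₀ ℕ) := (univ : Finset (Fin n)).finsuppAntidiag l

theorem sup_Pl (l : ℕ) (c : ℕ → ℝ) (a : Fin n → ℝ) : (Pl l c a).support ⊆ Ms n l := by
  intro m hm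
  unfold Ms
  rw [mem_finsuppAntidiag]
  refine ⟨?_, subset_univ _⟩
  have h1 := hom_Pl l c a (mem_support_iff.1 hm)
  rw [Finsupp.weight_apply, Finsupp.sum_fintype _ _ (fun i => by simp)] at h1
  simpa using h1

/-- **the positive kernel of degree `l` is a Gram kernel** -/
theorem gram (l : ℕ) (c : ℕ → ℝ) (hc0 : 0 < c 0) (hc : Rec n l c) :
    ∃ g : (Fin n →₀ ℕ) → EuclideanSpace ℝ (Fin n) → ℝ, ∀ x y : EuclideanSpace ℝ (Fin n),
      Kg l c (‖x‖ ^ 2) (‖y‖ ^ 2) ⟪x, y⟫ = ∑ m ∈ Ms n l, g m x * g m y := by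
  have hp : 0 < c 0 * l ! := mul_pos hc0 (by positivity)
  refine ⟨fun m x => √(wt m / (c 0 * l !)) * coeff m (Pl l c x), fun x y => ?_⟩
  have h1 := fis_Pl l c hc (x : Fin n → ℝ) (y : Fin n → ℝ)
  rw [fis_sup _ _ (Ms n l) (sup_Pl l c _), eval_Pl] at h1
  have hx : nn (x : Fin n → ℝ) = ‖x‖ ^ 2 := by
    rw [EuclideanSpace.real_norm_sq_eq]
    rfl
  have hy : nn (y : Fin n → ℝ) = ‖y‖ ^ 2 := by
    rw [EuclideanSpace.real_norm_sq_eq]
    rfl
  have hxy : (∑ i, (x : Fin n → ℝ) i * (y : Fin n → ℝ) i) = ⟪x, y⟫ := by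
    rw [PiLp.inner_apply]
    refine sum_congr rfl fun i _ => ?_
    simp [mul_comm]
  rw [hx, hy, hxy] at h1
  have h2 : Kg l c (‖x‖ ^ 2) (‖y‖ ^ 2) ⟪x, y⟫ = (c 0 * l !)⁻¹ *
      ∑ m ∈ Ms n l, coeff m (Pl l c y) * (coeff m (Pl l c x) * wt m) := by
    rw [h1, ← mul_assoc, inv_mul_cancel₀ hp.ne', one_mul]
    rfl
  rw [h2, mul_sum]
  refine sum_congr rfl fun m _ => ?_
  have h3 : √(wt m / (c 0 * l !)) * √(wt m / (c 0 * l !)) = wt m / (c 0 * l !) :=
    Real.mul_self_sqrt (div_nonneg (wt_nonneg m) hp.le)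
  have h4 : (c 0 * (l ! : ℝ))⁻¹ * (coeff m (Pl l c y) * (coeff m (Pl l c x) * wt m)) =
      (wt m / (c 0 * l !)) * (coeff m (Pl l c x) * coeff m (Pl l c y)) := by
    rw [div_eq_mul_inv]
    ring
  rw [h4, ← h3]
  ring

/-- the value on the diagonal -/
theorem Kg_diag (l : ℕ) (c : ℕ → ℝ) (A : ℝ) : Kg l c A A A = (∑ j ∈ range (l / 2 + 1), c j) * A ^ l := by
  unfold Kg
  rw [sum_mul]
  refine sum_congr rfl fun j hj => ?_
  have h1 : j < l / 2 + 1 := mem_range.1 hj
  rw [mul_assoc, ← pow_two, ← pow_mul, ← pow_add, show 2 * j + (l - 2 * j) = l by omega]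

/-- the features have the growth of `|x|^l` -/
theorem gram_bound (l : ℕ) (c : ℕ → ℝ) (g : (Fin n →₀ ℕ) → EuclideanSpace ℝ (Fin n) → ℝ)
    (hg : ∀ x y : EuclideanSpace ℝ (Fin n),
      Kg l c (‖x‖ ^ 2) (‖y‖ ^ 2) ⟪x, y⟫ = ∑ m ∈ Ms n l, g m x * g m y) (m : Fin n →₀ ℕ) (hm : m ∈ Ms n l)
    (x : EuclideanSpace ℝ (Fin n)) :
    |g m x| ≤ √(∑ j ∈ range (l / 2 + 1), c j) * (1 + (‖x‖ ^ 2) ^ l) := by
  have h1 := hg x x
  rw [real_inner_self_eq_norm_sq, Kg_diag] at h1
  have h2 : g m x * g m x ≤ (∑ j ∈ range (l / 2 + 1), c j) * (‖x‖ ^ 2) ^ l := by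
    rw [h1]
    exact single_le_sum (f := fun m => g m x * g m x) (fun i _ => mul_self_nonneg _) hm
  have h3 : |g m x| ≤ √((∑ j ∈ range (l / 2 + 1), c j) * (‖x‖ ^ 2) ^ l) := by
    rw [← Real.sqrt_mul_self_eq_abs]
    exact Real.sqrt_le_sqrt h2
  have h4 : (0 : ℝ) ≤ (‖x‖ ^ 2) ^ l := by positivity
  rw [mul_comm, Real.sqrt_mul h4] at h3
  refine h3.trans ?_
  rw [mul_comm]
  refine mul_le_mul_of_nonneg_left ?_ (Real.sqrt_nonneg _)
  rw [Real.sqrt_le_left (by positivity)]
  nlinarith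

end Pool.Agent.LPK.H50G
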