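import Pool.Agent.LPK.Stmts

/-!
# Squad LPK, row PSL: Poisson summation for the lattice
-/

set_option autoImplicit false

noncomputable section

open MeasureTheory Filter Topology
open scoped RealInnerProductSpace

namespace Pool.Agent.LPK.H50

/-- linear substitution -/
theorem integral_comp_mulVec {n : ℕ} {g : Matrix (Fin n) (Fin n) ℝ} (hg : g.det ≠ 0)
    (F : (Fin n → ℝ) → ℝ) :
    ∫ x : Fin n → ℝ, F (g.mulVec x) = |g.det|⁻¹ * ∫ y : Fin n → ℝ, F y := by
  have h1 := Real.map_matrix_volume_pi_eq_smul_volume_pi hg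
  have h2 : MeasurableEmbedding (Matrix.toLin' g) := by
    refine Continuous.measurableEmbedding (LinearMap.continuous_of_finiteDimensional _) ?_
    intro x y hxy
    have h4 : g.mulVec x = g.mulVec y := by
      simpa only [Matrix.toLin'_apply] using hxy
    have h5 := congrArg (g⁻¹.mulVec) h4
    simpa only [Matrix.mulVec_mulVec, Matrix.nonsing_inv_mul g (isUnit_iff_ne_zero.2 hg),
      Matrix.one_mulVec] using h5
  have h3 := h2.integral_map (μ := (volume : Measure (Fin n → ℝ))) F
  rw [h1, integral_smul_measure, ENNReal.toReal_ofReal (abs_nonneg _), abs_inv] at h3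
  rw [← smul_eq_mul, h3]
  rfl

/-- the absolute value of the determinant -/
theorem abs_det {n : ℕ} {κ : ℝ} {b b' : Fin n → V n} (h : Du κ b b') :
    |(Matrix.of fun i j => b i j).det| = κ * (2 * Real.pi) ^ ((n : ℝ) / 2) := by
  have hpi : 0 < 2 * Real.pi := by positivity
  have hk := h.pos
  refine (sq_eq_sq₀ (abs_nonneg _) (by positivity)).mp ?_
  rw [sq_abs, h.vol, mul_pow κ, ← Real.rpow_natCast ((2 * Real.pi) ^ ((n : ℝ) / 2)) 2,
    ← Real.rpow_mul hpi.le]
  have e : (n : ℝ) / 2 * ((2 : ℕ) : ℝ) = n := by push_cast; ring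
  rw [e, Real.rpow_natCast]

/-- substitution `x = ∑ z_i b_i` -/
theorem subst {n : ℕ} {κ : ℝ} {b b' : Fin n → V n} (h : Du κ b b') (F : V n → ℝ) :
    κ * (2 * Real.pi) ^ ((n : ℝ) / 2) * ∫ z : Fin n → ℝ, F (∑ i, z i • b i) =
      ∫ x : V n, F x := by
  have hpi : 0 < 2 * Real.pi := by positivity
  have hk := h.pos
  have hdet := abs_det h
  have hpos : 0 < κ * (2 * Real.pi) ^ ((n : ℝ) / 2) := by positivity
  have hne : (Matrix.of fun i j => b i j).transpose.det ≠ 0 := by
    rw [Matrix.det_transpose]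
    intro h0
    rw [h0, abs_zero] at hdet
    exact hpos.ne hdet
  have h1 : ∀ z : Fin n → ℝ, ∑ i, z i • b i =
      (MeasurableEquiv.toLp 2 (Fin n → ℝ)) ((Matrix.of fun i j => b i j).transpose.mulVec z) := by
    intro z
    ext j
    simp only [WithLp.ofLp_sum, WithLp.ofLp_smul, Finset.sum_apply, Pi.smul_apply, smul_eq_mul,
      MeasurableEquiv.coe_toLp, Matrix.mulVec, dotProduct, Matrix.transpose_apply, Matrix.of_apply]
    exact Finset.sum_congr rfl fun i _ => mul_comm _ _
  have h2 : ∫ z : Fin n → ℝ, F (∑ i, z i • b i) =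
      |(Matrix.of fun i j => b i j).det|⁻¹ *
        ∫ y : Fin n → ℝ, F ((MeasurableEquiv.toLp 2 (Fin n → ℝ)) y) := by
    have h3 := integral_comp_mulVec hne (fun y => F ((MeasurableEquiv.toLp 2 (Fin n → ℝ)) y))
    rw [Matrix.det_transpose] at h3
    rw [← h3]
    exact integral_congr_ae (Eventually.of_forall fun z => by simp only [h1])
  have h4 : ∫ y : Fin n → ℝ, F ((MeasurableEquiv.toLp 2 (Fin n → ℝ)) y) = ∫ x : V n, F x :=
    (EuclideanSpace.volume_preserving_symm_measurableEquiv_toLp (Fin n)).symm.integral_comp' F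
  rw [h2, h4, hdet, ← mul_assoc, mul_inv_cancel₀ hpos.ne', one_mul]

/-- the inner product with a vector of the dual lattice -/
theorem inner_dual {n : ℕ} {κ : ℝ} {b b' : Fin n → V n} (h : Du κ b b') (z : Fin n → ℝ)
    (m : Fin n → ℤ) : ⟪∑ i, z i • b i, pt b' m⟫ = 2 * Real.pi * ∑ i, (m i : ℝ) * z i := by
  rw [pt, sum_inner, Finset.mul_sum]
  refine Finset.sum_congr rfl fun i _ => ?_
  rw [inner_sum, Finset.sum_eq_single i]
  · rw [real_inner_smul_left, real_inner_smul_right, h.dual, if_pos rfl]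
    ring
  · intro j _ hj
    rw [real_inner_smul_left, real_inner_smul_right, h.dual, if_neg (Ne.symm hj)]
    ring
  · intro hi
    exact absurd (Finset.mem_univ i) hi

/-- **PSL** -/
theorem psl (hPsz : PszStmt) (hDua : DuaStmt) : PslStmt := by
  intro n κ b b' h f C c hc hf heven hbd hsum
  obtain ⟨-, -, ⟨c₀, hc₀, hlow⟩, -, -⟩ := hDua n κ b b' h
  have hpi : 0 < 2 * Real.pi := by positivity
  have hk := h.pos
  have hpos : 0 < κ * (2 * Real.pi) ^ ((n : ℝ) / 2) := by positivity
  have hC : 0 ≤ C := by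
    have h1 := (abs_nonneg _).trans (hbd 0)
    by_contra h2
    push Not at h2
    exact absurd h1 (not_le.mpr (mul_neg_of_neg_of_pos h2 (Real.exp_pos _)))
  have hint : ∀ m : Fin n → ℤ, ∫ z : Fin n → ℝ, f (∑ i, z i • b i) *
      Real.cos (2 * Real.pi * ∑ i, (m i : ℝ) * z i) =
      (κ * (2 * Real.pi) ^ ((n : ℝ) / 2))⁻¹ * ∫ x : V n, f x * Real.cos ⟪x, pt b' m⟫ := by
    intro m
    rw [← subst h (fun x => f x * Real.cos ⟪x, pt b' m⟫), ← mul_assoc, inv_mul_cancel₀ hpos.ne',
      one_mul]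
    refine integral_congr_ae (Eventually.of_forall fun z => ?_)
    simp only [inner_dual h]
  have hmain := hPsz n (fun z => f (∑ i, z i • b i)) C (c * c₀) (mul_pos hc hc₀)
    (hf.comp (by fun_prop)) (fun z => by
      have h1 : ∑ i, (-z) i • b i = -∑ i, z i • b i := by
        simp only [Pi.neg_apply, neg_smul, Finset.sum_neg_distrib]
      simp only [h1]
      exact heven _)
    (fun z => by
      refine (hbd _).trans (mul_le_mul_of_nonneg_left (Real.exp_le_exp.mpr ?_) hC)
      have h1 := mul_le_mul_of_nonneg_left (hlow z) hc.le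
      linarith [h1])
    (by
      simp only [hint]
      exact hsum.mul_left _)
  simp only [hint] at hmain
  rw [tsum_mul_left] at hmain
  have h1 : ∀ a : Fin n → ℤ, f (∑ i, (a i : ℝ) • b i) = f (pt b a) := fun _ => rfl
  simp only [h1] at hmain
  rw [hmain, ← mul_assoc, mul_inv_cancel₀ hpos.ne', one_mul]

end Pool.Agent.LPK.H50
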